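import Pool.Agent.Helper64.SPX.Spec

/-! SPX, part ATOM: from cubes to atoms. -/

set_option autoImplicit false

open MeasureTheory Filter Topology Set
open scoped InnerProductSpace ENNReal

namespace Pool.Agent.Helper79.SPX.ATOM

open Pool.Agent.Helper64.SPX

theorem norm_ee (θ : ℝ) : ‖ee θ‖ = 1 := by
  rw [ee, show (2 * Real.pi * θ * Complex.I : ℂ) = ((2 * Real.pi * θ : ℝ) : ℂ) * Complex.I by
    push_cast; ring, Complex.norm_exp_ofReal_mul_I]

theorem ee_add (a b : ℝ) : ee (a + b) = ee a * ee b := by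
  rw [ee, ee, ee, ← Complex.exp_add]
  congr 1
  push_cast
  ring

theorem ee_zero : ee 0 = 1 := by
  rw [ee]
  simp

theorem ee_sum {α : Type} (s : Finset α) (f : α → ℝ) : ee (∑ i ∈ s, f i) = ∏ i ∈ s, ee (f i) := by
  classical
  induction s using Finset.induction_on with
  | empty => rw [Finset.sum_empty, Finset.prod_empty, ee_zero]
  | insert a s ha ih => rw [Finset.sum_insert ha, Finset.prod_insert ha, ee_add, ih]

/-- the indicator function of the interval of length `j` -/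
noncomputable def iv (j : ℕ) (t : ℝ) : ℂ := {t : ℝ | |t| ≤ (j : ℝ) / 2}.indicator (fun _ => 1) t

/-- its Fourier transform -/
noncomputable def sc (j : ℕ) (θ : ℝ) : ℂ := ∫ t : ℝ, iv j t * ee (-(θ * t))

theorem sc_eq (j : ℕ) (θ : ℝ) : sc j θ = ∫ t in (-((j : ℝ) / 2))..((j : ℝ) / 2), ee (-(θ * t)) := by
  have h0 : (-((j : ℝ) / 2)) ≤ (j : ℝ) / 2 := by
    have : (0 : ℝ) ≤ (j : ℝ) / 2 := by positivity
    linarith
  rw [intervalIntegral.integral_of_le h0, ← integral_Icc_eq_integral_Ioc,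
    ← integral_indicator measurableSet_Icc, sc]
  congr 1
  ext t
  rw [iv]
  by_cases h : |t| ≤ (j : ℝ) / 2
  · rw [indicator_of_mem (show t ∈ {t : ℝ | |t| ≤ (j : ℝ) / 2} from h), one_mul,
      indicator_of_mem (show t ∈ Icc (-((j : ℝ) / 2)) ((j : ℝ) / 2) from abs_le.1 h)]
  · rw [indicator_of_notMem (show t ∉ {t : ℝ | |t| ≤ (j : ℝ) / 2} from h), zero_mul,
      indicator_of_notMem (fun h' : t ∈ Icc (-((j : ℝ) / 2)) ((j : ℝ) / 2) => h (abs_le.2 h'))]

theorem sc_zero (j : ℕ) : sc j 0 = j := by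
  rw [sc_eq]
  simp only [zero_mul, neg_zero, ee_zero, intervalIntegral.integral_const]
  simp only [sub_neg_eq_add, add_halves]
  simp

theorem sc_ne (j : ℕ) {θ : ℝ} (hθ : θ ≠ 0) :
    sc j θ = ((Real.sin (Real.pi * θ * j) / (Real.pi * θ) : ℝ) : ℂ) := by
  have hc : -(2 * Real.pi * θ * Complex.I : ℂ) ≠ 0 := by
    simp [Real.pi_ne_zero, hθ]
  have h1 : ∀ t : ℝ, ee (-(θ * t)) = Complex.exp (-(2 * Real.pi * θ * Complex.I) * t) := by
    intro t
    rw [ee]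
    congr 1
    push_cast
    ring
  rw [sc_eq]
  simp only [h1]
  rw [integral_exp_mul_complex hc]
  have e1 : Complex.exp (-(2 * Real.pi * θ * Complex.I) * (((j : ℝ) / 2 : ℝ) : ℂ)) =
      Complex.exp (-((Real.pi * θ * j : ℝ) : ℂ) * Complex.I) := by
    congr 1
    push_cast
    ring
  have e2 : Complex.exp (-(2 * Real.pi * θ * Complex.I) * ((-((j : ℝ) / 2) : ℝ) : ℂ)) =
      Complex.exp (((Real.pi * θ * j : ℝ) : ℂ) * Complex.I) := by
    congr 1
    push_cast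
    ring
  rw [e1, e2]
  have e3 : (Real.sin (Real.pi * θ * j) : ℂ) = Complex.sin ((Real.pi * θ * j : ℝ) : ℂ) := by
    rw [Complex.ofReal_sin]
  rw [Complex.ofReal_div, e3, Complex.sin]
  have hp : (Real.pi : ℂ) ≠ 0 := by exact_mod_cast Real.pi_ne_zero
  have ht : (θ : ℂ) ≠ 0 := by exact_mod_cast hθ
  push_cast
  field_simp
  rw [Complex.I_sq]
  ring

theorem norm_sc_le (j : ℕ) (θ : ℝ) : ‖sc j θ‖ ≤ j := by
  rw [sc_eq]
  have h0 : (-((j : ℝ) / 2)) ≤ (j : ℝ) / 2 := by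
    have : (0 : ℝ) ≤ (j : ℝ) / 2 := by positivity
    linarith
  have h := intervalIntegral.norm_integral_le_of_norm_le_const (a := -((j : ℝ) / 2))
    (b := (j : ℝ) / 2) (f := fun t => ee (-(θ * t))) (C := 1) (fun t _ => (norm_ee _).le)
  rw [one_mul, sub_neg_eq_add, add_halves, abs_of_nonneg (Nat.cast_nonneg j)] at h
  exact h

theorem norm_sc_ne (j : ℕ) {θ : ℝ} (hθ : θ ≠ 0) :
    ‖sc j θ‖ = |Real.sin (Real.pi * θ * j)| / (Real.pi * |θ|) := by
  rw [sc_ne j hθ, Complex.norm_real, Real.norm_eq_abs, abs_div, abs_mul, abs_of_pos Real.pi_pos]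

/-- normalised square -/
noncomputable def uu (j : ℕ) (θ : ℝ) : ℝ := (‖sc j θ‖ / j) ^ 2

theorem uu_nn (j : ℕ) (θ : ℝ) : 0 ≤ uu j θ := sq_nonneg _

theorem uu_le_one {j : ℕ} (hj : 1 ≤ j) (θ : ℝ) : uu j θ ≤ 1 := by
  have hj0 : (0 : ℝ) < j := by exact_mod_cast hj
  rw [uu]
  have h1 : ‖sc j θ‖ / j ≤ 1 := (div_le_one hj0).2 (norm_sc_le j θ)
  exact pow_le_one₀ (by positivity) h1

theorem uu_le {j : ℕ} (hj : 1 ≤ j) {θ : ℝ} (hθ : θ ≠ 0) : uu j θ ≤ 1 / (Real.pi * |θ| * j) ^ 2 := by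
  have hj0 : (0 : ℝ) < j := by exact_mod_cast hj
  have hpi := Real.pi_pos
  have hθ' : 0 < |θ| := abs_pos.2 hθ
  rw [uu, norm_sc_ne j hθ, div_div, div_pow]
  exact div_le_div_of_nonneg_right (pow_le_one₀ (abs_nonneg _) (Real.abs_sin_le_one _))
    (by positivity)

theorem uu_zero {j : ℕ} (hj : 1 ≤ j) : uu j 0 = 1 := by
  have hj0 : (j : ℝ) ≠ 0 := by
    have : (0 : ℝ) < j := by exact_mod_cast hj
    exact this.ne'
  rw [uu, sc_zero, Complex.norm_natCast, div_self hj0, one_pow]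

theorem sin_le {φ K : ℝ} (hK : 0 < K) (h : |φ| ≤ K) :
    Real.sin (Real.pi * φ) ^ 2 / (Real.pi * K) ^ 2 ≤ ‖sc 1 φ‖ ^ 2 := by
  have hpi := Real.pi_pos
  by_cases h0 : φ = 0
  · rw [h0, mul_zero, Real.sin_zero]
    simp only [ne_eq, OfNat.ofNat_ne_zero, not_false_eq_true, zero_pow, zero_div]
    positivity
  · rw [norm_sc_ne 1 h0, Nat.cast_one, mul_one, div_pow, sq_abs]
    have h1 : 0 < |φ| := abs_pos.2 h0
    apply div_le_div_of_nonneg_left (sq_nonneg _) (by positivity)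
    exact pow_le_pow_left₀ (by positivity) (mul_le_mul_of_nonneg_left h hpi.le) 2

theorem uu_dom {j : ℕ} (hj : 1 ≤ j) (θ : ℝ) :
    uu j θ ≤ 16 * (‖sc 1 θ‖ ^ 2 + ‖sc 1 (θ + 1 / 2)‖ ^ 2) := by
  have hpi := Real.pi_pos
  have hpi4 := Real.pi_lt_four
  have hK : 0 < |θ| + 1 / 2 := by positivity
  have h1 := sin_le hK (show |θ| ≤ |θ| + 1 / 2 by linarith)
  have h2 := sin_le hK (show |θ + 1 / 2| ≤ |θ| + 1 / 2 by
    refine (abs_add_le _ _).trans ?_
    rw [abs_of_pos (by norm_num : (0 : ℝ) < 1 / 2)])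
  have h3 : Real.sin (Real.pi * (θ + 1 / 2)) = Real.cos (Real.pi * θ) := by
    rw [show Real.pi * (θ + 1 / 2) = Real.pi * θ + Real.pi / 2 by ring, Real.sin_add_pi_div_two]
  rw [h3] at h2
  have h4 : 1 / (Real.pi * (|θ| + 1 / 2)) ^ 2 ≤ ‖sc 1 θ‖ ^ 2 + ‖sc 1 (θ + 1 / 2)‖ ^ 2 := by
    have h5 := Real.sin_sq_add_cos_sq (Real.pi * θ)
    calc 1 / (Real.pi * (|θ| + 1 / 2)) ^ 2 =
          Real.sin (Real.pi * θ) ^ 2 / (Real.pi * (|θ| + 1 / 2)) ^ 2 +
          Real.cos (Real.pi * θ) ^ 2 / (Real.pi * (|θ| + 1 / 2)) ^ 2 := by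
          rw [← add_div, h5]
      _ ≤ _ := add_le_add h1 h2
  by_cases hθ : |θ| ≤ 1 / 2
  · refine (uu_le_one hj θ).trans ?_
    have h6 : (Real.pi * (|θ| + 1 / 2)) ^ 2 ≤ 16 := by
      have : Real.pi * (|θ| + 1 / 2) ≤ 4 * 1 :=
        mul_le_mul hpi4.le (by linarith) hK.le (by norm_num)
      calc (Real.pi * (|θ| + 1 / 2)) ^ 2 ≤ (4 * 1) ^ 2 := pow_le_pow_left₀ (by positivity) this 2
        _ = 16 := by norm_num
    have h7 : 1 / 16 ≤ 1 / (Real.pi * (|θ| + 1 / 2)) ^ 2 :=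
      one_div_le_one_div_of_le (by positivity) h6
    linarith
  · push Not at hθ
    have hθ0 : θ ≠ 0 := by
      rintro rfl
      rw [abs_zero] at hθ
      linarith
    have hj1 : (1 : ℝ) ≤ j := by exact_mod_cast hj
    refine (uu_le hj hθ0).trans ?_
    have hθp : 0 < |θ| := by linarith
    have h6 : 1 / (Real.pi * |θ| * j) ^ 2 ≤ 4 * (1 / (Real.pi * (|θ| + 1 / 2)) ^ 2) := by
      rw [mul_one_div, div_le_div_iff₀ (by positivity) (by positivity), one_mul]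
      have h7 : Real.pi * (|θ| + 1 / 2) ≤ 2 * (Real.pi * |θ| * j) := by
        have h8 : Real.pi * (|θ| + 1 / 2) ≤ Real.pi * (2 * |θ|) :=
          mul_le_mul_of_nonneg_left (by linarith) hpi.le
        have h9 : Real.pi * |θ| * 1 ≤ Real.pi * |θ| * j :=
          mul_le_mul_of_nonneg_left hj1 (by positivity)
        linarith
      calc (Real.pi * (|θ| + 1 / 2)) ^ 2 ≤ (2 * (Real.pi * |θ| * j)) ^ 2 :=
            pow_le_pow_left₀ (by positivity) h7 2
        _ = 4 * (Real.pi * |θ| * j) ^ 2 := by ring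
    have h10 : 0 ≤ 1 / (Real.pi * (|θ| + 1 / 2)) ^ 2 := by positivity
    linarith

theorem uu_lim (θ : ℝ) : Tendsto (fun j => uu j θ) atTop (𝓝 (if θ = 0 then 1 else 0)) := by
  split_ifs with h
  · subst h
    refine tendsto_const_nhds.congr' ?_
    filter_upwards [eventually_ge_atTop 1] with j hj
    exact (uu_zero hj).symm
  · have hθ : 0 < |θ| := abs_pos.2 h
    have hpi := Real.pi_pos
    have h1 : Tendsto (fun j : ℕ => 1 / (Real.pi * |θ| * j) ^ 2) atTop (𝓝 0) := by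
      have h2 : Tendsto (fun j : ℕ => (Real.pi * |θ| * j) ^ 2) atTop atTop :=
        (tendsto_pow_atTop (by norm_num)).comp
          (tendsto_natCast_atTop_atTop.const_mul_atTop (by positivity))
      simp only [one_div]
      exact h2.inv_tendsto_atTop
    refine squeeze_zero' (Eventually.of_forall fun j => uu_nn j θ) ?_ h1
    filter_upwards [eventually_ge_atTop 1] with j hj
    exact uu_le hj h

section prod

variable {ι κ : Type} [Fintype ι] [Fintype κ]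

theorem iv_prod (j : ℕ) (x : E ι) :
    {x : E ι | ∀ i, |x i| ≤ (j : ℝ) / 2}.indicator (fun _ => (1 : ℂ)) x = ∏ i, iv j (x i) := by
  classical
  by_cases h : ∀ i, |x i| ≤ (j : ℝ) / 2
  · rw [indicator_of_mem (show x ∈ {x : E ι | ∀ i, |x i| ≤ (j : ℝ) / 2} from h)]
    rw [Finset.prod_eq_one]
    intro i _
    rw [iv, indicator_of_mem (show x i ∈ {t : ℝ | |t| ≤ (j : ℝ) / 2} from h i)]
  · rw [indicator_of_notMem (show x ∉ {x : E ι | ∀ i, |x i| ≤ (j : ℝ) / 2} from h)]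
    push Not at h
    obtain ⟨i, hi⟩ := h
    refine (Finset.prod_eq_zero (Finset.mem_univ i) ?_).symm
    rw [iv, indicator_of_notMem (show x i ∉ {t : ℝ | |t| ≤ (j : ℝ) / 2} from not_le.2 hi)]

theorem inner_eq (w x : E ι) : ⟪w, x⟫_ℝ = ∑ i, w i * x i := by
  rw [PiLp.inner_apply]
  refine Finset.sum_congr rfl fun i _ => ?_
  simp [mul_comm]

theorem ft_cube (j : ℕ) (w : E ι) :
    ∫ x : E ι, ({x : E ι | ∀ i, |x i| ≤ (j : ℝ) / 2}.indicator (fun _ => (1 : ℂ)) x) *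
      ee (-⟪w, x⟫_ℝ) = ∏ i, sc j (w i) := by
  have h1 : ∀ x : E ι, ({x : E ι | ∀ i, |x i| ≤ (j : ℝ) / 2}.indicator (fun _ => (1 : ℂ)) x) *
      ee (-⟪w, x⟫_ℝ) = (fun y : ι → ℝ => ∏ i, (iv j (y i) * ee (-(w i * y i))))
        ((MeasurableEquiv.toLp 2 (ι → ℝ)).symm x) := by
    intro x
    rw [iv_prod, inner_eq, ← Finset.sum_neg_distrib, ee_sum, ← Finset.prod_mul_distrib]
    rfl
  simp only [h1]
  rw [(EuclideanSpace.volume_preserving_symm_measurableEquiv_toLp ι).integral_comp'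
    (g := fun y : ι → ℝ => ∏ i, (iv j (y i) * ee (-(w i * y i))))]
  rw [integral_fintype_prod_volume_eq_prod (fun i t => iv j t * ee (-(w i * t)))]
  rfl

theorem inner_split (z z' : E (ι ⊕ κ)) : ⟪z, z'⟫_ℝ = ⟪fst z, fst z'⟫_ℝ + ⟪snd z, snd z'⟫_ℝ := by
  rw [inner_eq, inner_eq, inner_eq, Fintype.sum_sum_type]
  rfl

theorem ft_cubeT (hS : S_SPLIT) (j : ℕ) (F : E κ → ℂ) (z : E (ι ⊕ κ)) :
    ft (cubeT ι j F) z = (∏ i, sc j (fst z i)) * ft F (snd z) := by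
  obtain ⟨e, he, -, hmp⟩ := hS ι κ
  have h1 : ∀ z' : E (ι ⊕ κ), cubeT ι j F z' * ee (-⟪z, z'⟫_ℝ) =
      (fun p : E ι × E κ => (({x : E ι | ∀ i, |x i| ≤ (j : ℝ) / 2}.indicator
        (fun _ => (1 : ℂ)) p.1) * ee (-⟪fst z, p.1⟫_ℝ)) * (F p.2 * ee (-⟪snd z, p.2⟫_ℝ))) (e z') := by
    intro z'
    rw [he, inner_split, neg_add, ee_add, cubeT]
    ring
  rw [ft]
  simp only [h1]
  rw [hmp.integral_comp' (g := fun p : E ι × E κ => (({x : E ι | ∀ i, |x i| ≤ (j : ℝ) / 2}.indicator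
        (fun _ => (1 : ℂ)) p.1) * ee (-⟪fst z, p.1⟫_ℝ)) * (F p.2 * ee (-⟪snd z, p.2⟫_ℝ)))]
  rw [integral_prod_mul (fun x : E ι => ({x : E ι | ∀ i, |x i| ≤ (j : ℝ) / 2}.indicator
        (fun _ => (1 : ℂ)) x) * ee (-⟪fst z, x⟫_ℝ)) (fun y : E κ => F y * ee (-⟪snd z, y⟫_ℝ)),
    ft_cube]
  rfl

theorem fst_add (z w : E (ι ⊕ κ)) (i : ι) : fst (z + w) i = fst z i + fst w i := rfl

theorem fst_sub (z w : E (ι ⊕ κ)) (i : ι) : fst (z - w) i = fst z i - fst w i := rfl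

theorem bdd_cube (hS : S_SPLIT) (j : ℕ) {F : E κ → ℂ} (hF : Bdd F) : Bdd (cubeT ι j F) := by
  obtain ⟨hm, ⟨C, hC⟩, r, hr⟩ := hF
  obtain ⟨e, he, -, -⟩ := hS ι κ
  have hC0 : 0 ≤ C := (norm_nonneg _).trans (hC 0)
  have hmf : Measurable (fst : E (ι ⊕ κ) → E ι) := by
    have : (fst : E (ι ⊕ κ) → E ι) = fun z => (e z).1 := by
      ext z
      rw [he]
    rw [this]
    exact measurable_fst.comp e.measurable
  have hms : Measurable (snd : E (ι ⊕ κ) → E κ) := by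
    have : (snd : E (ι ⊕ κ) → E κ) = fun z => (e z).2 := by
      ext z
      rw [he]
    rw [this]
    exact measurable_snd.comp e.measurable
  have hcube : MeasurableSet {x : E ι | ∀ i, |x i| ≤ (j : ℝ) / 2} := by
    have : IsClosed {x : E ι | ∀ i, |x i| ≤ (j : ℝ) / 2} := by
      simp only [Set.ofPred_forall]
      refine isClosed_iInter fun i => ?_
      exact isClosed_le (by fun_prop) continuous_const
    exact this.measurableSet
  refine ⟨?_, ⟨C, ?_⟩, (Fintype.card ι : ℝ) * j + |r| + 1, ?_⟩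
  · exact ((measurable_const.indicator hcube).comp hmf).mul (hm.comp hms)
  · intro z
    rw [cubeT, norm_mul]
    have h1 : ‖{x : E ι | ∀ i, |x i| ≤ (j : ℝ) / 2}.indicator (fun _ => (1 : ℂ)) (fst z)‖ ≤ 1 := by
      by_cases h : fst z ∈ {x : E ι | ∀ i, |x i| ≤ (j : ℝ) / 2}
      · rw [indicator_of_mem h, norm_one]
      · rw [indicator_of_notMem h, norm_zero]
        exact zero_le_one
    calc _ ≤ 1 * C := mul_le_mul h1 (hC _) (norm_nonneg _) zero_le_one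
      _ = C := one_mul _
  · intro z hz
    by_contra hne
    have h1 : fst z ∈ {x : E ι | ∀ i, |x i| ≤ (j : ℝ) / 2} := by
      by_contra h
      apply hne
      rw [cubeT, indicator_of_notMem h, zero_mul]
    have h2 : ‖snd z‖ < r := by
      by_contra h
      apply hne
      rw [cubeT, hr _ (not_lt.1 h), mul_zero]
    have h3 : ‖z‖ ^ 2 = ∑ i, (fst z i) ^ 2 + ‖snd z‖ ^ 2 := by
      rw [EuclideanSpace.real_norm_sq_eq, EuclideanSpace.real_norm_sq_eq, Fintype.sum_sum_type]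
      rfl
    have h4 : ∑ i, (fst z i) ^ 2 ≤ ∑ _i : ι, (j : ℝ) ^ 2 := by
      refine Finset.sum_le_sum fun i _ => ?_
      rw [← sq_abs]
      have h5 := h1 i
      have hj0 : (0 : ℝ) ≤ j := Nat.cast_nonneg j
      exact pow_le_pow_left₀ (abs_nonneg _) (h5.trans (by linarith)) 2
    rw [Finset.sum_const, nsmul_eq_mul, Finset.card_univ] at h4
    have hr0 : 0 < r := (norm_nonneg _).trans_lt h2
    have h5 : ‖snd z‖ ^ 2 ≤ r ^ 2 := pow_le_pow_left₀ (norm_nonneg _) h2.le 2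
    have h6 : ((Fintype.card ι : ℝ) * j + |r| + 1) ^ 2 ≤ ‖z‖ ^ 2 :=
      pow_le_pow_left₀ (by positivity) hz 2
    rw [abs_of_pos hr0] at h6
    have hj0 : (0 : ℝ) ≤ j := Nat.cast_nonneg j
    have hn0 : (0 : ℝ) ≤ (Fintype.card ι : ℝ) := Nat.cast_nonneg _
    have h7 : (Fintype.card ι : ℝ) * j ^ 2 ≤ ((Fintype.card ι : ℝ) * j) ^ 2 := by
      rw [mul_pow]
      refine mul_le_mul_of_nonneg_right ?_ (sq_nonneg _)
      rcases Nat.eq_zero_or_pos (Fintype.card ι) with h | h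
      · rw [h]; simp
      · have : (1 : ℝ) ≤ (Fintype.card ι : ℝ) := by exact_mod_cast h
        nlinarith
    nlinarith [mul_nonneg (mul_nonneg hn0 hj0) hr0.le, mul_nonneg hn0 hj0]

theorem key1 (hS : S_SPLIT) {j : ℕ} (hj : 1 ≤ j) (F : E κ → ℂ) (w : E (ι ⊕ κ)) :
    ‖ft (cubeT ι j F) w‖ ^ 2 / (j : ℝ) ^ (2 * Fintype.card ι) =
      (∏ i, uu j (fst w i)) * ‖ft F (snd w)‖ ^ 2 := by
  have hj0 : (0 : ℝ) < j := by exact_mod_cast hj
  rw [ft_cubeT hS, norm_mul, mul_pow, norm_prod, ← Finset.prod_pow]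
  have h1 : ∏ i, ‖sc j (fst w i)‖ ^ 2 =
      (j : ℝ) ^ (2 * Fintype.card ι) * ∏ i, uu j (fst w i) := by
    have h2 : ∀ i, ‖sc j (fst w i)‖ ^ 2 = (j : ℝ) ^ 2 * uu j (fst w i) := by
      intro i
      rw [uu, div_pow, mul_div_cancel₀ _ (by positivity)]
    simp only [h2]
    rw [Finset.prod_mul_distrib, Finset.prod_const, Finset.card_univ, ← pow_mul]
  rw [h1, mul_assoc, mul_div_cancel_left₀ _ (by positivity)]

/-- the shift -/
noncomputable def hp (p : ι → Bool) : E ι := WithLp.toLp 2 fun i => if p i then 1 / 2 else 0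

open Classical in
theorem dom (hS : S_SPLIT) {j : ℕ} (hj : 1 ≤ j) (F : E κ → ℂ) (w : E (ι ⊕ κ)) :
    (∏ i, uu j (fst w i)) * ‖ft F (snd w)‖ ^ 2 ≤
      16 ^ Fintype.card ι * ∑ p : ι → Bool, ‖ft (cubeT ι 1 F) (w + pair (hp p) 0)‖ ^ 2 := by
  classical
  have h1 : ∏ i, uu j (fst w i) ≤ ∏ i, (16 * ∑ b : Bool,
      ‖sc 1 (fst w i + if b then 1 / 2 else 0)‖ ^ 2) := by
    refine Finset.prod_le_prod (fun i _ => uu_nn _ _) fun i _ => ?_
    refine (uu_dom hj _).trans (le_of_eq ?_)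
    rw [Fintype.sum_bool]
    simp only [if_true, Bool.false_eq_true, if_false, add_zero]
    ring
  rw [Finset.prod_mul_distrib, Finset.prod_const, Finset.card_univ, Finset.prod_univ_sum,
    Fintype.piFinset_univ] at h1
  refine (mul_le_mul_of_nonneg_right h1 (sq_nonneg _)).trans (le_of_eq ?_)
  rw [mul_assoc, Finset.sum_mul]
  congr 1
  refine Finset.sum_congr rfl fun p _ => ?_
  rw [ft_cubeT hS, norm_mul, mul_pow, norm_prod, ← Finset.prod_pow]
  have e1 : snd (w + pair (hp p) 0) = snd w := by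
    ext k
    show w (Sum.inr k) + (0 : E κ) k = w (Sum.inr k)
    simp
  rw [e1]
  rfl

open Classical in
theorem limT (hC : S_CONT) (hS : S_SPLIT) {Λ : Set (E (ι ⊕ κ))} {r : ℝ} (hr : 0 < r)
    (hsep : Sep r Λ) {F : E κ → ℂ} (hF : Bdd F) (z : E (ι ⊕ κ)) :
    Tendsto (fun j : ℕ => G Λ (cubeT ι j F) z / (j : ℝ) ^ (2 * Fintype.card ι)) atTop
      (𝓝 (∑' a : Λ, (∏ i, if fst (z - (a : E (ι ⊕ κ))) i = 0 then (1 : ℝ) else 0) *
        ‖ft F (snd (z - (a : E (ι ⊕ κ))))‖ ^ 2)) := by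
  classical
  have h1 := tendsto_tsum_of_dominated_convergence (𝓕 := atTop)
    (f := fun (j : ℕ) (a : Λ) => (∏ i, uu j (fst (z - (a : E (ι ⊕ κ))) i)) * ‖ft F (snd (z - (a : E (ι ⊕ κ))))‖ ^ 2)
    (g := fun a : Λ => (∏ i, if fst (z - (a : E (ι ⊕ κ))) i = 0 then (1 : ℝ) else 0) *
        ‖ft F (snd (z - (a : E (ι ⊕ κ))))‖ ^ 2)
    (bound := fun a : Λ => 16 ^ Fintype.card ι * ∑ p : ι → Bool,
      ‖ft (cubeT ι 1 F) (z - (a : E (ι ⊕ κ)) + pair (hp p) 0)‖ ^ 2) ?_ ?_ ?_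
  · refine h1.congr' ?_
    filter_upwards [eventually_ge_atTop 1] with j hj
    rw [G, ← tsum_div_const]
    refine tsum_congr fun a => ?_
    exact (key1 hS hj F _).symm
  · refine Summable.mul_left _ (summable_sum fun p _ => ?_)
    have h2 := (hC (ι ⊕ κ) (cubeT ι 1 F) (bdd_cube hS 1 hF) r hr Λ hsep).1 (z + pair (hp p) 0)
    refine h2.congr fun a => ?_
    rw [show z + pair (hp p) 0 - (a : E (ι ⊕ κ)) = z - (a : E (ι ⊕ κ)) + pair (hp p) 0 by abel]
  · intro a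
    refine Tendsto.mul_const _ ?_
    exact tendsto_finset_prod _ fun i _ => uu_lim _
  · filter_upwards [eventually_ge_atTop 1] with j hj
    intro a
    rw [Real.norm_eq_abs, abs_of_nonneg (mul_nonneg (Finset.prod_nonneg fun i _ => uu_nn _ _)
      (sq_nonneg _))]
    exact dom hS hj F _

theorem limval (Λ : Set (E (ι ⊕ κ))) (F : E κ → ℂ) (x : E ι) (y : E κ) :
    ∑' a : Λ, (∏ i, if fst (pair x y - (a : E (ι ⊕ κ))) i = 0 then (1 : ℝ) else 0) *
        ‖ft F (snd (pair x y - (a : E (ι ⊕ κ))))‖ ^ 2 =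
    ∑' a : {a : E (ι ⊕ κ) // a ∈ Λ ∧ fst a = x}, ‖ft F (y - snd a.1)‖ ^ 2 := by
  classical
  have h1 := tsum_subtype Λ (fun a : E (ι ⊕ κ) =>
    (∏ i, if fst (pair x y - a) i = 0 then (1 : ℝ) else 0) * ‖ft F (snd (pair x y - a))‖ ^ 2)
  have h2 := tsum_subtype {a : E (ι ⊕ κ) | a ∈ Λ ∧ fst a = x} (fun a : E (ι ⊕ κ) =>
    ‖ft F (y - snd a)‖ ^ 2)
  refine h1.trans (Eq.trans ?_ h2.symm)
  refine tsum_congr fun a => ?_
  by_cases ha : a ∈ Λ
  · rw [indicator_of_mem ha]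
    by_cases hx : fst a = x
    · rw [indicator_of_mem (show a ∈ {a : E (ι ⊕ κ) | a ∈ Λ ∧ fst a = x} from ⟨ha, hx⟩)]
      have h3 : ∏ i, (if fst (pair x y - a) i = 0 then (1 : ℝ) else 0) = 1 := by
        refine Finset.prod_eq_one fun i _ => ?_
        rw [if_pos]
        rw [fst_sub, hx]
        show x i - x i = 0
        rw [sub_self]
      have h4 : snd (pair x y - a) = y - snd a := rfl
      rw [h3, one_mul, h4]
    · rw [indicator_of_notMem (fun h : a ∈ {a : E (ι ⊕ κ) | a ∈ Λ ∧ fst a = x} => hx h.2)]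
      have h3 : ∃ i, fst a i ≠ x i := by
        by_contra hcon
        push Not at hcon
        exact hx (by ext i; exact hcon i)
      obtain ⟨i, hi⟩ := h3
      rw [Finset.prod_eq_zero (Finset.mem_univ i), zero_mul]
      rw [if_neg]
      rw [fst_sub]
      intro h
      exact hi (sub_eq_zero.1 h).symm
  · rw [indicator_of_notMem ha, indicator_of_notMem
      (fun h : a ∈ {a : E (ι ⊕ κ) | a ∈ Λ ∧ fst a = x} => ha h.1)]

end prod

theorem main (hC : S_CONT) (hS : S_SPLIT) : S_ATOM := by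
  intro ι κ _ _ Λ r F v hr hsep hF hper x y
  have h1 := limT hC hS hr hsep hF (pair x y)
  have h2 := limT hC hS hr hsep hF (pair (x + v) y)
  rw [limval] at h1 h2
  have e1 : pair (x + v) y = pair x y + pair v 0 := by
    ext k
    rcases k with i | k
    · rfl
    · show y k = y k + (0 : E κ) k
      simp
  refine tendsto_nhds_unique (h2.congr' ?_) h1
  filter_upwards [eventually_ge_atTop 1] with j hj
  rw [e1, hper j hj]

end Pool.Agent.Helper79.SPX.ATOM
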