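import Pool.Agent.Helper79.SPX.ATOM

/-! SPX, part FIN: from periodicity to a spectrum of `B`. -/

set_option autoImplicit false

open MeasureTheory Filter Topology Set
open scoped InnerProductSpace ENNReal

namespace Pool.Agent.Helper79.SPX.FIN

open Pool.Agent.Helper64.SPX Pool.Agent.Helper79.SPX.ATOM

section tens

variable {ι κ : Type} [Fintype ι] [Fintype κ]

/-- tensor product -/
noncomputable def tn (f : E ι → ℂ) (g : E κ → ℂ) (z : E (ι ⊕ κ)) : ℂ := f (fst z) * g (snd z)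

theorem ft_tn (hS : S_SPLIT) (f : E ι → ℂ) (g : E κ → ℂ) (z : E (ι ⊕ κ)) :
    ft (tn f g) z = ft f (fst z) * ft g (snd z) := by
  obtain ⟨e, he, -, hmp⟩ := hS ι κ
  have h1 : ∀ z' : E (ι ⊕ κ), tn f g z' * ee (-⟪z, z'⟫_ℝ) =
      (fun p : E ι × E κ => (f p.1 * ee (-⟪fst z, p.1⟫_ℝ)) *
        (g p.2 * ee (-⟪snd z, p.2⟫_ℝ))) (e z') := by
    intro z'
    rw [he, inner_split, neg_add, ee_add, tn]
    ring
  rw [ft]
  simp only [h1]
  rw [hmp.integral_comp' (g := fun p : E ι × E κ => (f p.1 * ee (-⟪fst z, p.1⟫_ℝ)) *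
        (g p.2 * ee (-⟪snd z, p.2⟫_ℝ)))]
  rw [integral_prod_mul (fun x : E ι => f x * ee (-⟪fst z, x⟫_ℝ))
    (fun y : E κ => g y * ee (-⟪snd z, y⟫_ℝ))]
  rfl

theorem int_tn (hS : S_SPLIT) (f : E ι → ℂ) (g : E κ → ℂ) :
    ∫ z, ‖tn f g z‖ ^ 2 = (∫ x, ‖f x‖ ^ 2) * ∫ y, ‖g y‖ ^ 2 := by
  obtain ⟨e, he, -, hmp⟩ := hS ι κ
  have h1 : ∀ z' : E (ι ⊕ κ), ‖tn f g z'‖ ^ 2 =
      (fun p : E ι × E κ => ‖f p.1‖ ^ 2 * ‖g p.2‖ ^ 2) (e z') := by
    intro z'
    rw [he, tn, norm_mul, mul_pow]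
  simp only [h1]
  rw [hmp.integral_comp' (g := fun p : E ι × E κ => ‖f p.1‖ ^ 2 * ‖g p.2‖ ^ 2)]
  rw [integral_prod_mul (fun x : E ι => ‖f x‖ ^ 2) (fun y : E κ => ‖g y‖ ^ 2)]

theorem vol_prod (hS : S_SPLIT) (A : Set (E ι)) (B : Set (E κ)) :
    volume (prodSet A B) = volume A * volume B := by
  obtain ⟨e, he, -, hmp⟩ := hS ι κ
  have h1 : prodSet A B = e ⁻¹' (A ×ˢ B) := by
    ext z
    rw [mem_preimage, he, mem_prod]
    rfl
  rw [h1, hmp.measure_preimage_equiv, Measure.prod_prod]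

theorem meas_fst (hS : S_SPLIT) : Measurable (fst : E (ι ⊕ κ) → E ι) := by
  obtain ⟨e, he, -, -⟩ := hS ι κ
  have : (fst : E (ι ⊕ κ) → E ι) = fun z => (e z).1 := by
    ext z
    rw [he]
  rw [this]
  exact measurable_fst.comp e.measurable

theorem meas_snd (hS : S_SPLIT) : Measurable (snd : E (ι ⊕ κ) → E κ) := by
  obtain ⟨e, he, -, -⟩ := hS ι κ
  have : (snd : E (ι ⊕ κ) → E κ) = fun z => (e z).2 := by
    ext z
    rw [he]
  rw [this]
  exact measurable_snd.comp e.measurable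

theorem bdd_tn (hS : S_SPLIT) {f : E ι → ℂ} {g : E κ → ℂ} (hf : Bdd f) (hg : Bdd g) :
    Bdd (tn f g) := by
  obtain ⟨fm, ⟨C, hC⟩, r, hr⟩ := hf
  obtain ⟨gm, ⟨C', hC'⟩, r', hr'⟩ := hg
  have hC0 : 0 ≤ C := (norm_nonneg _).trans (hC 0)
  refine ⟨(fm.comp (meas_fst hS)).mul (gm.comp (meas_snd hS)), ⟨C * C', fun z => ?_⟩,
    |r| + |r'| + 1, fun z hz => ?_⟩
  · rw [tn, norm_mul]
    exact mul_le_mul (hC _) (hC' _) (norm_nonneg _) hC0
  · by_contra hne
    have h1 : ‖fst z‖ < r := by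
      by_contra h
      apply hne
      rw [tn, hr _ (not_lt.1 h), zero_mul]
    have h2 : ‖snd z‖ < r' := by
      by_contra h
      apply hne
      rw [tn, hr' _ (not_lt.1 h), mul_zero]
    have h3 : ‖z‖ ^ 2 = ‖fst z‖ ^ 2 + ‖snd z‖ ^ 2 := by
      rw [EuclideanSpace.real_norm_sq_eq, EuclideanSpace.real_norm_sq_eq,
        EuclideanSpace.real_norm_sq_eq, Fintype.sum_sum_type]
      rfl
    have hr0 : 0 < r := (norm_nonneg _).trans_lt h1
    have hr0' : 0 < r' := (norm_nonneg _).trans_lt h2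
    have h4 : ‖fst z‖ ^ 2 ≤ r ^ 2 := pow_le_pow_left₀ (norm_nonneg _) h1.le 2
    have h5 : ‖snd z‖ ^ 2 ≤ r' ^ 2 := pow_le_pow_left₀ (norm_nonneg _) h2.le 2
    have h6 : (|r| + |r'| + 1) ^ 2 ≤ ‖z‖ ^ 2 := pow_le_pow_left₀ (by positivity) hz 2
    rw [abs_of_pos hr0, abs_of_pos hr0'] at h6
    nlinarith [mul_pos hr0 hr0']

theorem bdd_ind {A : Set (E ι)} (hA : MeasurableSet A) (hb : Bornology.IsBounded A) :
    Bdd (ind A) := by
  obtain ⟨R, hR⟩ := hb.subset_closedBall 0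
  refine ⟨measurable_const.indicator hA, ⟨1, fun x => ?_⟩, R + 1, fun x hx => ?_⟩
  · rw [ind]
    by_cases h : x ∈ A
    · rw [indicator_of_mem h, norm_one]
    · rw [indicator_of_notMem h, norm_zero]
      exact zero_le_one
  · rw [ind, indicator_of_notMem]
    intro h
    have := hR h
    rw [mem_closedBall_zero_iff] at this
    linarith

theorem int_ind {A : Set (E ι)} (hA : MeasurableSet A) :
    ∫ x, ‖ind A x‖ ^ 2 = (volume A).toReal := by
  have h1 : (fun x => ‖ind A x‖ ^ 2) = A.indicator fun _ => (1 : ℝ) := by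
    ext x
    rw [ind]
    by_cases h : x ∈ A
    · rw [indicator_of_mem h, indicator_of_mem h]
      norm_num
    · rw [indicator_of_notMem h, indicator_of_notMem h]
      norm_num
  rw [h1, integral_indicator hA, setIntegral_const, smul_eq_mul, mul_one]
  rfl

theorem ft_ind_zero {A : Set (E ι)} (hA : MeasurableSet A) :
    ft (ind A) 0 = ((volume A).toReal : ℂ) := by
  rw [ft]
  simp only [inner_zero_left, neg_zero, ee_zero, mul_one]
  have h1 : (fun x => ind A x) = A.indicator fun _ => (1 : ℂ) := rfl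
  rw [h1, integral_indicator hA, setIntegral_const]
  simp
  rfl

theorem pair_fst_snd (a : E (ι ⊕ κ)) : pair (fst a) (snd a) = a := by
  ext k
  rcases k with i | k <;> rfl

end tens

theorem main (hSP : S_SPLIT) (hPARS : S_PARS) (hBND : S_BND) : S_FIN := by
  intro ι κ _ _ A B Λ r v hA hA0 hB hBb hB0 hr hsep hv hP hTB hper
  classical
  have hAm := hA.measurableSet
  have hAb := hA.isBounded
  have hBND' := hBND ι κ A B Λ hA hA0 hB hBb hP
  set α : ℝ := (volume A).toReal with hαd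
  set β : ℝ := (volume B).toReal with hβd
  have hα : 0 < α := ENNReal.toReal_pos hA0.ne' hA.measure_lt_top.ne
  have hβ : 0 < β := ENNReal.toReal_pos hB0.ne' hBb.measure_lt_top.ne
  let N : (E κ → ℂ) → E κ → E ι → ℝ≥0∞ := fun F y x =>
    ∑' a : {a : E (ι ⊕ κ) // a ∈ Λ ∧ fst a = x}, ENNReal.ofReal (‖ft F (y - snd a.1)‖ ^ 2)
  have hNper : ∀ F, Bdd F → SuppIn F B → ∀ (y : E κ) (i : ι) (x : E ι),
      N F y (x + v i) = N F y x := by
    intro F hF hs y i x
    simp only [N]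
    rw [← ENNReal.ofReal_tsum_of_nonneg (fun _ => sq_nonneg _) (hBND' F hF hs (x + v i) y).1,
      ← ENNReal.ofReal_tsum_of_nonneg (fun _ => sq_nonneg _) (hBND' F hF hs x y).1,
      hper F hF hs i x y]
  let φ : (ι → ℤ) →+ E ι :=
    { toFun := fun c => ∑ i, (c i : ℝ) • v i
      map_zero' := by simp
      map_add' := fun c c' => by simp [add_smul, Finset.sum_add_distrib] }
  have hφ : ∀ c, φ c = ∑ i, (c i : ℝ) • v i := fun _ => rfl
  have hφinj : Function.Injective φ := by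
    rw [injective_iff_map_eq_zero]
    intro c hc
    ext i
    have := Fintype.linearIndependent_iff.1 hv (fun i => (c i : ℝ)) hc i
    simpa using this
  have hNφ : ∀ F, Bdd F → SuppIn F B → ∀ (y : E κ) (c : ι → ℤ) (x : E ι),
      N F y (x + φ c) = N F y x := by
    intro F hF hs y
    let P : AddSubgroup (E ι) :=
      { carrier := {d | ∀ x, N F y (x + d) = N F y x}
        zero_mem' := fun x => by rw [add_zero]
        add_mem' := fun {a b} ha hb x => by
          rw [← add_assoc]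
          exact (hb _).trans (ha x)
        neg_mem' := fun {a} ha x => by
          have := ha (x + -a)
          rw [neg_add_cancel_right] at this
          exact this.symm }
    intro c
    have : φ c ∈ P := by
      rw [hφ]
      refine sum_mem fun i _ => ?_
      rw [Int.cast_smul_eq_zsmul]
      exact zsmul_mem (show v i ∈ P from fun x => hNper F hF hs y i x) _
    exact this
  have total : ∀ F, Bdd F → SuppIn F B → ∀ y : E κ,
      ∑' x : E ι, ENNReal.ofReal (‖ft (ind A) (-x)‖ ^ 2) * N F y x =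
        ENNReal.ofReal (α * β * (α * ∫ x, ‖F x‖ ^ 2)) := by
    intro F hF hs y
    have h1 := hP (tn (ind A) F) (bdd_tn hSP (bdd_ind hAm hAb) hF) (by
      intro z hz
      rw [tn]
      by_cases h : fst z ∈ A
      · rw [hs _ (fun h' => hz ⟨h, h'⟩), mul_zero]
      · rw [ind, indicator_of_notMem h, zero_mul]) (pair 0 y)
    rw [int_tn hSP, int_ind hAm, vol_prod hSP, ENNReal.toReal_mul] at h1
    have h2 : ∑' a : Λ, ENNReal.ofReal (‖ft (tn (ind A) F) (pair 0 y - (a : E (ι ⊕ κ)))‖ ^ 2) =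
        ENNReal.ofReal (α * β * (α * ∫ x, ‖F x‖ ^ 2)) := by
      rw [← ENNReal.ofReal_tsum_of_nonneg (fun _ => sq_nonneg _) h1.summable, h1.tsum_eq]
    rw [← h2]
    rw [← (Equiv.sigmaFiberEquiv (fun a : Λ => fst (a : E (ι ⊕ κ)))).tsum_eq,
      ENNReal.tsum_sigma']
    refine tsum_congr fun x => ?_
    simp only [N]
    rw [← ENNReal.tsum_mul_left]
    rw [← (Equiv.subtypeSubtypeEquivSubtypeInter (fun a : E (ι ⊕ κ) => a ∈ Λ)
      (fun a => fst a = x)).tsum_eq]
    refine tsum_congr fun a => ?_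
    have hax : fst ((a : Λ) : E (ι ⊕ κ)) = x := a.2
    show _ = ENNReal.ofReal (‖ft (tn (ind A) F) (pair 0 y - ((a : Λ) : E (ι ⊕ κ)))‖ ^ 2)
    rw [ft_tn hSP, norm_mul, mul_pow, ENNReal.ofReal_mul (sq_nonneg _)]
    have e1 : fst (pair 0 y - ((a : Λ) : E (ι ⊕ κ))) = -x := by
      ext i
      rw [fst_sub, hax]
      show (0 : E ι) i - x i = (-x) i
      simp
    have e2 : snd (pair 0 y - ((a : Λ) : E (ι ⊕ κ))) = y - snd ((a : Λ) : E (ι ⊕ κ)) := rfl
    rw [e1, e2]
    rfl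
  -- the quotient
  let D : AddSubgroup (E ι) := φ.range
  let o : E ι ⧸ D → E ι := fun q => q.out
  have ho : ∀ q : E ι ⧸ D, (QuotientAddGroup.mk (o q) : E ι ⧸ D) = q :=
    fun q => QuotientAddGroup.out_eq' q
  let ψ : (E ι ⧸ D) × (ι → ℤ) → E ι := fun p => o p.1 + φ p.2
  have hψ : Function.Bijective ψ := by
    constructor
    · rintro ⟨q, c⟩ ⟨q', c'⟩ h
      have h' : o q + φ c = o q' + φ c' := h
      have hq : q = q' := by
        rw [← ho q, ← ho q', QuotientAddGroup.eq]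
        refine ⟨c - c', ?_⟩
        rw [map_sub]
        have : φ c = -(o q) + (o q' + φ c') := by rw [← h']; abel
        rw [this]
        abel
      subst hq
      have : φ c = φ c' := add_left_cancel h'
      rw [hφinj this]
    · intro x
      have h1 := ho (QuotientAddGroup.mk x)
      rw [QuotientAddGroup.eq] at h1
      obtain ⟨c, hc⟩ := h1
      refine ⟨(QuotientAddGroup.mk x, c), ?_⟩
      show o (QuotientAddGroup.mk x) + φ c = x
      rw [hc]
      abel
  have total2 : ∀ F, Bdd F → SuppIn F B → ∀ y : E κ,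
      ∑' q : E ι ⧸ D, N F y (o q) = ENNReal.ofReal (β * ∫ x, ‖F x‖ ^ 2) := by
    intro F hF hs y
    have h1 := total F hF hs y
    rw [← (Equiv.ofBijective ψ hψ).tsum_eq, ENNReal.tsum_prod'] at h1
    have h2 : ∀ q : E ι ⧸ D, ∑' c : ι → ℤ, ENNReal.ofReal (‖ft (ind A)
        (-(Equiv.ofBijective ψ hψ (q, c)))‖ ^ 2) * N F y (Equiv.ofBijective ψ hψ (q, c)) =
        ENNReal.ofReal (α ^ 2) * N F y (o q) := by
      intro q
      have h3 := hTB (-(o q))
      have h4 : ∀ c, N F y (Equiv.ofBijective ψ hψ (q, c)) = N F y (o q) :=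
        fun c => hNφ F hF hs y c (o q)
      simp only [h4]
      rw [ENNReal.tsum_mul_right]
      congr 1
      rw [← h3.tsum_eq, ENNReal.ofReal_tsum_of_nonneg (fun _ => sq_nonneg _) h3.summable]
      refine tsum_congr fun c => ?_
      have e1 : -(Equiv.ofBijective ψ hψ (q, c)) = -(o q) - ∑ i, (c i : ℝ) • v i := by
        show -(o q + φ c) = _
        rw [hφ]
        abel
      rw [e1]
    rw [tsum_congr h2, ENNReal.tsum_mul_left,
      show α * β * (α * ∫ x, ‖F x‖ ^ 2) = α ^ 2 * (β * ∫ x, ‖F x‖ ^ 2) by ring,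
      ENNReal.ofReal_mul (sq_nonneg _)] at h1
    have h0 : ENNReal.ofReal (α ^ 2) ≠ 0 :=
      (ENNReal.ofReal_pos.2 (by positivity)).ne'
    exact (ENNReal.mul_right_inj h0 ENNReal.ofReal_ne_top).1 h1
  have hone : ∀ (q : E ι ⧸ D) (γ : E κ), pair (o q) γ ∈ Λ →
      ENNReal.ofReal (β ^ 2) ≤ N (ind B) γ (o q) := by
    intro q γ h
    simp only [N]
    have h1 := ENNReal.le_tsum (f := fun a : {a : E (ι ⊕ κ) // a ∈ Λ ∧ fst a = o q} =>
      ENNReal.ofReal (‖ft (ind B) (γ - snd a.1)‖ ^ 2)) ⟨pair (o q) γ, h, rfl⟩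
    refine le_trans (le_of_eq ?_) h1
    have e1 : snd (pair (o q) γ) = γ := rfl
    show _ = ENNReal.ofReal (‖ft (ind B) (γ - snd (pair (o q) γ))‖ ^ 2)
    rw [e1, sub_self, ft_ind_zero hB, Complex.norm_real, Real.norm_eq_abs, sq_abs]
  have hsB : SuppIn (ind B) B := fun x hx => by rw [ind, indicator_of_notMem hx]
  have huniq : ∀ (q q' : E ι ⧸ D) (γ : E κ), pair (o q) γ ∈ Λ → pair (o q') γ ∈ Λ →
      q = q' := by
    intro q q' γ h h'
    by_contra hne
    have h1 := total2 (ind B) (bdd_ind hB hBb) hsB γ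
    rw [int_ind hB] at h1
    have h2 := ENNReal.sum_le_tsum (f := fun q => N (ind B) γ (o q)) {q, q'}
    rw [Finset.sum_pair hne, h1] at h2
    have h3 := (add_le_add (hone q γ h) (hone q' γ h')).trans h2
    rw [← ENNReal.ofReal_add (sq_nonneg _) (sq_nonneg _),
      ENNReal.ofReal_le_ofReal_iff (by positivity)] at h3
    nlinarith
  let Γ : Set (E κ) := {γ | ∃ q : E ι ⧸ D, pair (o q) γ ∈ Λ}
  have hfin : ParsAll Γ B := by
    intro F hF hs y
    have h1 := total2 F hF hs y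
    let m : (Σ q : E ι ⧸ D, {a : E (ι ⊕ κ) // a ∈ Λ ∧ fst a = o q}) → Γ := fun s =>
      ⟨snd s.2.1, s.1, by
        have e3 : pair (o s.1) (snd s.2.1) = s.2.1 :=
          (congrArg (fun t => pair t (snd s.2.1)) s.2.2.2).symm.trans (pair_fst_snd _)
        exact e3.symm ▸ s.2.2.1⟩
    have hm : Function.Bijective m := by
      constructor
      · rintro ⟨q, a, ha, hq⟩ ⟨q', a', ha', hq'⟩ h
        have h2 : snd a = snd a' := congrArg Subtype.val h
        have h3 : q = q' := by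
          refine huniq q q' (snd a) ?_ ?_
          · rw [← hq, pair_fst_snd]; exact ha
          · rw [h2, ← hq', pair_fst_snd]; exact ha'
        subst h3
        have h4 : a = a' := by
          rw [← pair_fst_snd a, ← pair_fst_snd a', h2, hq, hq']
        subst h4
        rfl
      · rintro ⟨γ, q, h⟩
        exact ⟨⟨q, pair (o q) γ, h, rfl⟩, rfl⟩
    have h2 : ∑' γ : Γ, ENNReal.ofReal (‖ft F (y - (γ : E κ))‖ ^ 2) =
        ENNReal.ofReal (β * ∫ x, ‖F x‖ ^ 2) := by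
      rw [← h1, ← (Equiv.ofBijective m hm).tsum_eq, ENNReal.tsum_sigma']
      rfl
    have hI : 0 ≤ β * ∫ x, ‖F x‖ ^ 2 :=
      mul_nonneg hβ.le (integral_nonneg fun _ => sq_nonneg _)
    have h3 : Summable fun γ : Γ => ‖ft F (y - (γ : E κ))‖ ^ 2 := by
      have := ENNReal.summable_toReal (f := fun γ : Γ =>
        ENNReal.ofReal (‖ft F (y - (γ : E κ))‖ ^ 2)) (by rw [h2]; exact ENNReal.ofReal_ne_top)
      refine this.congr fun γ => ?_
      exact ENNReal.toReal_ofReal (sq_nonneg _)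
    rw [← ENNReal.ofReal_tsum_of_nonneg (fun _ => sq_nonneg _) h3,
      ENNReal.ofReal_eq_ofReal_iff (tsum_nonneg fun _ => sq_nonneg _) hI] at h2
    rw [← h2]
    exact h3.hasSum
  exact ⟨Γ, (hPARS κ B Γ hB hBb hB0).2 hfin⟩

end Pool.Agent.Helper79.SPX.FIN
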